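import Pool.Agent.Helper54.LM.Defs
import Pool.Agent.Helper33.LK.KGL

/-! # LGL: the group law and `GLat` -/

namespace Pool.Agent.Helper54.LM

open Pool.Agent.Helper42.LS Pool.Agent.Helper42.LK

open WeierstrassCurve WeierstrassCurve.Affine

theorem st_LGL : ST_LGL := by
  intro K _ _ _ A B m P hP
  set Q : (Fin m → ℤ) → (ECK A B).toAffine.Point := fun k => ∑ i, k i • P i with hQ
  have hQadd : ∀ k l, Q (k + l) = Q k + Q l := by
    intro k l
    simp only [hQ, Pi.add_apply, add_zsmul, Finset.sum_add_distrib]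
  have hQneg : ∀ k, Q (-k) = -Q k := by
    intro k
    simp only [hQ, Pi.neg_apply, neg_zsmul, Finset.sum_neg_distrib]
  have hQ0 : ∀ k, k ≠ 0 → Q k ≠ 0 := hP
  have hex : ∀ k : Fin m → ℤ, ∃ xy : K × K, k ≠ 0 → ∃ h, Q k =
      (Point.some xy.1 xy.2 h : (ECK A B).toAffine.Point) := by
    intro k
    by_cases hk : k ≠ 0
    · have hne := hQ0 k hk
      rcases hkP : Q k with _ | ⟨x, y, h⟩
      · exact absurd hkP hne
      · exact ⟨(x, y), fun _ => ⟨h, rfl⟩⟩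
    · exact ⟨(0, 0), fun h => absurd h hk⟩
  choose xy hxy using hex
  have hmain : ∀ k : Fin m → ℤ, k ≠ 0 → ∃ h, Q k =
      (Point.some (xy k).1 (xy k).2 h : (ECK A B).toAffine.Point) := hxy
  have hxne : ∀ k l : Fin m → ℤ, k ≠ 0 → l ≠ 0 → k ≠ l → k ≠ -l → (xy k).1 ≠ (xy l).1 := by
    intro k l hk hl h1 h2 hx
    obtain ⟨h3, e1⟩ := hmain k hk
    obtain ⟨h4, e2⟩ := hmain l hl
    rcases (Point.X_eq_iff (h₁ := h3) (h₂ := h4)).mp hx with h | h
    · rw [← e1, ← e2] at h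
      apply hQ0 (k - l) (sub_ne_zero.2 h1)
      rw [sub_eq_add_neg, hQadd, hQneg, h]
      exact add_neg_cancel _
    · rw [← e1, ← e2] at h
      apply hQ0 (k + l) (fun h0 => h2 (eq_neg_of_add_eq_zero_left h0))
      rw [hQadd, h]
      exact neg_add_cancel _
  have hdbl : ∀ k : Fin m → ℤ, k ≠ 0 → (xy k).2 ≠ 0 ∧
      (xy (k + k)).1 = ((3 * (xy k).1 ^ 2 + 2 * 0 * (xy k).1 + A) / (2 * (xy k).2)) ^ 2
        - 0 - 2 * (xy k).1 ∧
      (xy (k + k)).2 = -((3 * (xy k).1 ^ 2 + 2 * 0 * (xy k).1 + A) / (2 * (xy k).2) *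
        ((xy (k + k)).1 - (xy k).1) + (xy k).2) := by
    intro k hk
    have hkk : k + k ≠ 0 := by
      intro h0
      apply hk
      funext i
      have := congrFun h0 i
      simp only [Pi.add_apply, Pi.zero_apply] at this ⊢
      omega
    obtain ⟨h1, e1⟩ := hmain k hk
    obtain ⟨h2, e2⟩ := hmain (k + k) hkk
    rw [hQadd, e1] at e2
    exact kgl_dbl e2
  have hadd : ∀ k l : Fin m → ℤ, k ≠ 0 → l ≠ 0 → k ≠ l → k ≠ -l →
      (xy (k + l)).1 = (((xy k).2 - (xy l).2) / ((xy k).1 - (xy l).1)) ^ 2 - (xy k).1 - (xy l).1 ∧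
      (xy (k + l)).2 = -(((xy k).2 - (xy l).2) / ((xy k).1 - (xy l).1) *
        ((xy (k + l)).1 - (xy k).1) + (xy k).2) := by
    intro k l hk hl h1 h2
    obtain ⟨h3, e1⟩ := hmain k hk
    obtain ⟨h4, e2⟩ := hmain l hl
    obtain ⟨h5, e3⟩ := hmain (k + l) (fun h0 => h2 (eq_neg_of_add_eq_zero_left h0))
    rw [hQadd, e1, e2] at e3
    exact kgl_add (hxne k l hk hl h1 h2) e3
  have hneg : ∀ k : Fin m → ℤ, k ≠ 0 → (xy (-k)).1 = (xy k).1 ∧ (xy (-k)).2 = -(xy k).2 := by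
    intro k hk
    obtain ⟨h1, e1⟩ := hmain k hk
    obtain ⟨h2, e2⟩ := hmain (-k) (neg_ne_zero.2 hk)
    obtain ⟨h3, e3⟩ := kgl_neg h1
    rw [hQneg, e1, e3] at e2
    obtain ⟨e4, e5⟩ := Point.some.inj e2
    exact ⟨e4.symm, e5.symm⟩
  refine ⟨fun k => (xy k).1, fun k => (xy k).2, ?_, fun k hk => hmain k hk⟩
  refine ⟨?_, ?_, ?_, ?_, ?_, ?_, ?_, ?_, ?_⟩
  · intro k hk
    obtain ⟨h1, e1⟩ := hmain k hk
    have := ((ECK A B).toAffine.equation_iff _ _).mp h1.1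
    simp only [ECK] at this
    linear_combination this
  · exact fun k hk => (hdbl k hk).1
  · exact fun k hk => (hneg k hk).1
  · exact fun k hk => (hneg k hk).2
  · exact hxne
  · exact fun k hk => (hdbl k hk).2.1
  · exact fun k hk => (hdbl k hk).2.2
  · intro k l hk hl h1 h2
    rw [(hadd k l hk hl h1 h2).1]; ring
  · exact fun k l hk hl h1 h2 => (hadd k l hk hl h1 h2).2

end Pool.Agent.Helper54.LM
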