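import Pool.Agent.Helper54.LM.Defs
import Pool.Agent.Helper99.LK.KPL

/-! # LPL: the parallelogram law up to a constant -/

open NumberField Height

namespace Pool.Agent.Helper54.LM

open Pool.Agent.Helper42.LS Pool.Agent.Helper42.LK

theorem st_LPL : ST_LPL := by
  intro K _ _ A B hAB
  have := KPL_ell A B hAB
  obtain ⟨C₁, hC₁⟩ := abs_logHeight_sym2_sub_le K
  obtain ⟨C₂, hC₂⟩ :=
    WeierstrassCurve.abs_logHeight_addSubMap_sub_two_mul_logHeight_le (ECK A B)
  refine ⟨C₂ + 3 * C₁, fun m X Y hXY => ⟨?_, ?_⟩⟩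
  · intro k l hk hl h1 h2
    have hne := hXY.xne k l hk hl h1 h2
    have hsub : X (k - l) = ((Y k + Y l) / (X k - X l)) ^ 2 - 0 - X k - X l := by
      have h3 := hXY.addx k (-l) hk (neg_ne_zero.2 hl) h2 (by rwa [neg_neg])
      rw [hXY.negx l hl, hXY.negy l hl, ← sub_eq_add_neg] at h3
      rw [h3]
      ring
    obtain ⟨e1, e2⟩ := KPL_sum A B (X k) (X l) (Y k) (Y l) (X (k + l)) (X (k - l)) hne
      (hXY.curve k hk) (hXY.curve l hl) (hXY.addx k l hk hl h1 h2) hsub
    have hF := hC₂ ![X k * X l, X k + X l, 1]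
    rw [KPL_map] at hF
    have hv : ![(X k * X l) ^ 2 - 2 * A * (X k * X l) * 1 - 4 * B * (X k + X l) * 1 +
          A ^ 2 * 1 ^ 2, 2 * (X k + X l) * (X k * X l) + 2 * A * (X k + X l) * 1 + 4 * B * 1 ^ 2,
          (X k + X l) ^ 2 - 4 * (X k * X l) * 1] =
        (X k - X l) ^ 2 • ![X (k + l) * X (k - l), X (k + l) + X (k - l), 1] := by
      funext i
      fin_cases i
      · simp only [Matrix.smul_cons, smul_eq_mul, Matrix.cons_val_zero, Fin.zero_eta]
        rw [e2]
        ring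
      · simp only [Matrix.smul_cons, smul_eq_mul, Matrix.cons_val_one, Matrix.cons_val_zero,
          Fin.mk_one]
        rw [e1]
        ring
      · simp
        ring
    rw [hv, logHeight_smul_eq_logHeight _ (pow_ne_zero 2 (sub_ne_zero.mpr hne))] at hF
    have g1 := KPL_lh (X k) (X l) C₁ hC₁
    have g2 := KPL_lh (X (k + l)) (X (k - l)) C₁ hC₁
    rw [abs_le] at hF g1 g2 ⊢
    constructor <;> linarith [hF.1, hF.2, g1.1, g1.2, g2.1, g2.2]
  · intro k hk
    obtain ⟨hcu, e1⟩ := KPL_dbl A B (X k) (Y k) (X (k + k)) (hXY.yne k hk) (hXY.curve k hk)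
      (hXY.dblx k hk)
    have hF := hC₂ ![X k * X k, X k + X k, 1]
    rw [KPL_map] at hF
    have hv : ![(X k * X k) ^ 2 - 2 * A * (X k * X k) * 1 - 4 * B * (X k + X k) * 1 +
          A ^ 2 * 1 ^ 2, 2 * (X k + X k) * (X k * X k) + 2 * A * (X k + X k) * 1 + 4 * B * 1 ^ 2,
          (X k + X k) ^ 2 - 4 * (X k * X k) * 1] =
        ![th A B (X k), 4 * cu A B (X k), 0] := by
      funext i
      fin_cases i
      · simp only [Matrix.cons_val_zero, Fin.zero_eta]
        unfold th
        ring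
      · simp only [Matrix.cons_val_one, Matrix.cons_val_zero, Fin.mk_one]
        unfold cu
        ring
      · simp
        ring
    rw [hv, logHeight_cons_cons_cons_zero, ← logHeight₁_div_eq_logHeight, ← e1] at hF
    have g1 := KPL_lh (X k) (X k) C₁ hC₁
    have hC0 : 0 ≤ C₁ := (abs_nonneg _).trans g1
    rw [abs_le] at hF g1 ⊢
    constructor <;> linarith [hF.1, hF.2, g1.1, g1.2]

end Pool.Agent.Helper54.LM
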